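import Pool.Agent.Helper8_BRW.Stmts

set_option autoImplicit false

open MeasureTheory Set Filter

namespace BRW.H63

/-- glue a mark and two trees -/
noncomputable def glue (p : (ℝ × ℝ) × ((List Bool → ℝ × ℝ) × (List Bool → ℝ × ℝ))) (l : List Bool) :
    ℝ × ℝ :=
  if l = [] then p.1
  else if l.getLast? = some true then p.2.2 l.dropLast else p.2.1 l.dropLast

theorem glue_nil (p : (ℝ × ℝ) × ((List Bool → ℝ × ℝ) × (List Bool → ℝ × ℝ))) : glue p [] = p.1 := by
  simp [glue]

theorem glue_false (p : (ℝ × ℝ) × ((List Bool → ℝ × ℝ) × (List Bool → ℝ × ℝ))) (l : List Bool) :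
    glue p (l ++ [false]) = p.2.1 l := by
  simp [glue]

theorem glue_true (p : (ℝ × ℝ) × ((List Bool → ℝ × ℝ) × (List Bool → ℝ × ℝ))) (l : List Bool) :
    glue p (l ++ [true]) = p.2.2 l := by
  simp [glue]

theorem cases_last (l : List Bool) : l = [] ∨ (∃ l', l = l' ++ [false]) ∨ ∃ l', l = l' ++ [true] := by
  rcases List.eq_nil_or_concat l with h | ⟨l', c, h⟩
  · exact Or.inl h
  · rw [List.concat_eq_append] at h
    cases c
    · exact Or.inr (Or.inl ⟨l', h⟩)
    · exact Or.inr (Or.inr ⟨l', h⟩)

theorem measurable_glue : Measurable glue := by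
  refine measurable_pi_iff.2 (fun l => ?_)
  rcases cases_last l with rfl | ⟨l', rfl⟩ | ⟨l', rfl⟩
  · simp only [glue_nil]
    exact measurable_fst
  · simp only [glue_false]
    exact (measurable_pi_apply l').comp (measurable_fst.comp measurable_snd)
  · simp only [glue_true]
    exact (measurable_pi_apply l').comp (measurable_snd.comp measurable_snd)

theorem inj_last (c : Bool) : Function.Injective (fun l : List Bool => l ++ [c]) := by
  intro l l' h
  exact List.append_cancel_right h

theorem prod_split (s : Finset (List Bool)) (g : List Bool → ENNReal) :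
    ∏ l ∈ s, g l = (if [] ∈ s then g [] else 1) *
      ((∏ l ∈ s.preimage (fun l => l ++ [false]) (inj_last false).injOn, g (l ++ [false])) *
       (∏ l ∈ s.preimage (fun l => l ++ [true]) (inj_last true).injOn, g (l ++ [true]))) := by
  classical
  rw [Finset.prod_preimage' (fun l : List Bool => l ++ [false]) s (inj_last false).injOn g,
    Finset.prod_preimage' (fun l : List Bool => l ++ [true]) s (inj_last true).injOn g]
  have h0 : (if [] ∈ s then g [] else 1) = ∏ l ∈ s with l = [], g l := by
    rw [Finset.prod_filter]
    split_ifs with h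
    · rw [Finset.prod_eq_single []]
      · rw [if_pos rfl]
      · intro l _ hl
        rw [if_neg hl]
      · intro hn
        exact absurd h hn
    · refine (Finset.prod_eq_one (fun l hl => ?_)).symm
      have : l ≠ [] := by
        rintro rfl
        exact h hl
      rw [if_neg this]
  rw [h0]
  rw [← Finset.prod_union, ← Finset.prod_union]
  · congr 1
    ext l
    simp only [Finset.mem_union, Finset.mem_filter, Set.mem_range]
    constructor
    · intro h
      rcases cases_last l with h1 | ⟨l', h1⟩ | ⟨l', h1⟩
      · exact Or.inl ⟨h, h1⟩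
      · exact Or.inr (Or.inl ⟨h, l', h1.symm⟩)
      · exact Or.inr (Or.inr ⟨h, l', h1.symm⟩)
    · rintro (h | h | h) <;> exact h.1
  · rw [Finset.disjoint_left]
    intro l h1 h2
    simp only [Finset.mem_union, Finset.mem_filter, Set.mem_range] at h1 h2
    obtain ⟨_, rfl⟩ := h1
    rcases h2 with ⟨_, l', h⟩ | ⟨_, l', h⟩ <;> simp at h
  · rw [Finset.disjoint_left]
    intro l h1 h2
    simp only [Finset.mem_filter, Set.mem_range] at h1 h2
    obtain ⟨_, l1, e1⟩ := h1
    obtain ⟨_, l2, e2⟩ := h2
    rw [← e1] at e2
    have := congrArg List.getLast? e2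
    simp at this

theorem map_glue : (markLaw.prod (treeLaw.prod treeLaw)).map glue = treeLaw := by
  classical
  unfold treeLaw
  refine Measure.eq_infinitePi (fun _ => markLaw) ?_
  intro s t ht
  have hms : MeasurableSet (Set.pi (s : Set (List Bool)) t) :=
    MeasurableSet.pi s.countable_toSet (fun i _ => ht i)
  rw [Measure.map_apply measurable_glue hms]
  have hpre : glue ⁻¹' (Set.pi (s : Set (List Bool)) t)
      = (if [] ∈ s then t [] else Set.univ) ×ˢ
        ((Set.pi (s.preimage (fun l => l ++ [false]) (inj_last false).injOn : Set (List Bool))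
            (fun l => t (l ++ [false]))) ×ˢ
         (Set.pi (s.preimage (fun l => l ++ [true]) (inj_last true).injOn : Set (List Bool))
            (fun l => t (l ++ [true])))) := by
    ext p
    simp only [Set.mem_preimage, Set.mem_pi, Set.mem_prod, Finset.mem_coe, Finset.mem_preimage]
    constructor
    · intro h
      refine ⟨?_, ?_, ?_⟩
      · split_ifs with h1
        · have := h [] h1
          rwa [glue_nil] at this
        · trivial
      · intro l hl
        have := h _ hl
        rwa [glue_false] at this
      · intro l hl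
        have := h _ hl
        rwa [glue_true] at this
    · rintro ⟨h1, h2, h3⟩ l hl
      rcases cases_last l with rfl | ⟨l', rfl⟩ | ⟨l', rfl⟩
      · rw [glue_nil]
        rwa [if_pos hl] at h1
      · rw [glue_false]
        exact h2 l' hl
      · rw [glue_true]
        exact h3 l' hl
  rw [hpre, Measure.prod_prod, Measure.prod_prod, Measure.infinitePi_pi _ (fun i _ => ht _),
    Measure.infinitePi_pi _ (fun i _ => ht _), prod_split s (fun l => markLaw (t l))]
  congr 1
  split_ifs
  · rfl
  · exact measure_univ

theorem pb : PBStmt := by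
  have hm : Measurable (fun ω : List Bool → ℝ × ℝ =>
      (ω [], (fun l => ω (l ++ [false])), (fun l => ω (l ++ [true])))) := by
    refine Measurable.prodMk (measurable_pi_apply _) (Measurable.prodMk ?_ ?_)
    · exact measurable_pi_iff.2 (fun l => measurable_pi_apply _)
    · exact measurable_pi_iff.2 (fun l => measurable_pi_apply _)
  refine ⟨hm, ?_⟩
  rw [← map_glue, Measure.map_map hm measurable_glue]
  have : (fun ω : List Bool → ℝ × ℝ =>
      (ω [], (fun l => ω (l ++ [false])), (fun l => ω (l ++ [true])))) ∘ glue = id := by
    funext p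
    simp only [Function.comp, glue_nil, glue_false, glue_true, id]
  rw [this, Measure.map_id, map_glue]

end BRW.H63
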