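import Pool.Agent.Helper8_BRW.Stmts

set_option autoImplicit false

open MeasureTheory Set Filter

namespace BRW.H63

theorem bern (u0 : ℤ → ℕ) (f : ℤ → ℝ) (h0 : ∀ z, 0 ≤ f z) (h1 : ∀ z, f z ≤ 1) (F : Finset ℤ) :
    1 - ∑ z ∈ F, (u0 z : ℝ) * f z ≤ ∏ z ∈ F, (1 - f z) ^ (u0 z) ∧
    0 ≤ ∏ z ∈ F, (1 - f z) ^ (u0 z) ∧ ∏ z ∈ F, (1 - f z) ^ (u0 z) ≤ 1 := by
  classical
  induction F using Finset.induction_on with
  | empty => simp
  | insert z F hz ih =>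
    rw [Finset.sum_insert hz, Finset.prod_insert hz]
    obtain ⟨i1, i2, i3⟩ := ih
    have hp0 : 0 ≤ (1 - f z) ^ (u0 z) := pow_nonneg (by linarith [h1 z]) _
    have hp1 : (1 - f z) ^ (u0 z) ≤ 1 := pow_le_one₀ (by linarith [h1 z]) (by linarith [h0 z])
    have hb : 1 - (u0 z : ℝ) * f z ≤ (1 - f z) ^ (u0 z) := by
      have := one_add_mul_le_pow (show (-2 : ℝ) ≤ - f z by linarith [h1 z]) (u0 z)
      have e : 1 + (u0 z : ℝ) * (- f z) = 1 - (u0 z : ℝ) * f z := by ring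
      have e2 : 1 + - f z = 1 - f z := by ring
      rw [e, e2] at this
      exact this
    refine ⟨?_, mul_nonneg hp0 i2, ?_⟩
    · nlinarith [mul_nonneg (sub_nonneg.2 hp1) (sub_nonneg.2 i3)]
    · calc (1 - f z) ^ (u0 z) * ∏ z ∈ F, (1 - f z) ^ (u0 z) ≤ 1 * 1 :=
          mul_le_mul hp1 i3 i2 zero_le_one
        _ = 1 := one_mul 1

theorem geo (F : Finset ℤ) : ∑ z ∈ F, (if z ≤ 0 then (2 : ℝ) ^ z else 0) ≤ 2 := by
  classical
  have h1 : ∑ z ∈ F, (if z ≤ 0 then (2 : ℝ) ^ z else 0) = ∑ z ∈ F.filter (fun z => z ≤ 0), (2 : ℝ) ^ z :=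
    (Finset.sum_filter _ _).symm
  rw [h1]
  have hinj : Set.InjOn Int.natAbs (F.filter (fun z : ℤ => z ≤ 0) : Set ℤ) := by
    intro a ha b hb hab
    simp only [Finset.coe_filter, Set.mem_ofPred_eq] at ha hb
    omega
  have h2 : ∑ z ∈ F.filter (fun z => z ≤ 0), (2 : ℝ) ^ z
      = ∑ n ∈ (F.filter (fun z : ℤ => z ≤ 0)).image Int.natAbs, (1 / 2 : ℝ) ^ n := by
    rw [Finset.sum_image hinj]
    refine Finset.sum_congr rfl (fun z hz => ?_)
    rw [Finset.mem_filter] at hz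
    have e : z = - ((z.natAbs : ℕ) : ℤ) := by omega
    conv_lhs => rw [e]
    rw [zpow_neg, zpow_natCast, one_div, inv_pow]
  rw [h2]
  calc ∑ n ∈ (F.filter (fun z : ℤ => z ≤ 0)).image Int.natAbs, (1 / 2 : ℝ) ^ n
      ≤ ∑' n : ℕ, (1 / 2 : ℝ) ^ n :=
        summable_geometric_two.sum_le_tsum _ (fun n _ => by positivity)
    _ = 2 := tsum_geometric_two

theorem tls (hcru : CRUStmt) : TLSStmt := by
  intro a b C ξ henv u0 hIC w hw t ε ht hε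
  obtain ⟨n1, hn1⟩ := exists_pow_lt_of_lt_one (show 0 < ε / Real.exp t from div_pos hε (Real.exp_pos _))
    (show (1 / 2 : ℝ) < 1 by norm_num)
  have hM : 0 < 2 * (C : ℝ) * Real.exp ((b + 1) * t) + 1 := by positivity
  obtain ⟨n2, hn2⟩ := exists_pow_lt_of_lt_one
    (show 0 < ε / (2 * (C : ℝ) * Real.exp ((b + 1) * t) + 1) from div_pos hε hM)
    (show (1 / 2 : ℝ) < 1 by norm_num)
  have hb0 : ∀ y z, 0 ≤ w y t z := fun y z => (hw y).nonneg t z ht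
  have hb1 : ∀ y z, w y t z ≤ 1 := fun y z => (hw y).le_one t z ht
  refine ⟨-(n1 : ℤ), (n2 : ℤ), ?_, ?_⟩
  · have h := (hcru a b ξ henv (-(n1 : ℤ)) 2 (by norm_num)).2.2.2 _ (hw _) t 0 ht
    have e1 : Real.exp (2 / 2 * t) * (2 : ℝ) ^ (-(n1 : ℤ) - 0) = Real.exp t * (1 / 2) ^ n1 := by
      rw [sub_zero, zpow_neg, zpow_natCast, one_div, inv_pow]
      norm_num
    rw [e1] at h
    have h2 : Real.exp t * (1 / 2) ^ n1 < ε := by
      have := (lt_div_iff₀ (Real.exp_pos t)).1 hn1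
      linarith
    unfold noHit
    have hbdd : BddBelow (Set.range (fun F : Finset ℤ => ∏ z ∈ F, (1 - w (-(n1 : ℤ)) t z) ^ (u0 z))) :=
      ⟨0, by rintro _ ⟨F, rfl⟩; exact (bern u0 _ (hb0 _) (hb1 _) F).2.1⟩
    refine le_trans (ciInf_le hbdd {0}) ?_
    rw [Finset.prod_singleton]
    have h3 : (1 - w (-(n1 : ℤ)) t 0) ^ (u0 0) ≤ 1 - w (-(n1 : ℤ)) t 0 := by
      have hle : 1 ≤ u0 0 := hIC.1
      calc (1 - w (-(n1 : ℤ)) t 0) ^ (u0 0) ≤ (1 - w (-(n1 : ℤ)) t 0) ^ 1 :=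
            pow_le_pow_of_le_one (by linarith [hb1 (-(n1 : ℤ)) 0]) (by linarith [hb0 (-(n1 : ℤ)) 0]) hle
        _ = 1 - w (-(n1 : ℤ)) t 0 := pow_one _
    linarith
  · unfold noHit
    refine le_ciInf (fun F => ?_)
    refine le_trans ?_ (bern u0 _ (hb0 _) (hb1 _) F).1
    have h2 : (1 / 2 : ℝ) ^ n2 * (2 * (C : ℝ) * Real.exp ((b + 1) * t)) ≤ ε := by
      have := (lt_div_iff₀ hM).1 hn2
      have hp : 0 ≤ (1 / 2 : ℝ) ^ n2 := by positivity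
      nlinarith
    have h3 : ∑ z ∈ F, (u0 z : ℝ) * w (n2 : ℤ) t z
        ≤ ∑ z ∈ F, (C : ℝ) * Real.exp ((b + 1) * t) * (1 / 2) ^ n2 * (if z ≤ 0 then (2 : ℝ) ^ z else 0) := by
      refine Finset.sum_le_sum (fun z _ => ?_)
      by_cases hz : z ≤ 0
      · rw [if_pos hz]
        have h := (hcru a b ξ henv (n2 : ℤ) 2 (by norm_num)).1 _ (hw _) t z ht
        have e1 : Real.exp ((b + 2 / 2) * t) * (2 : ℝ) ^ (z - (n2 : ℤ))
            = Real.exp ((b + 1) * t) * (1 / 2) ^ n2 * (2 : ℝ) ^ z := by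
          rw [zpow_sub₀ (by norm_num), zpow_natCast, one_div, inv_pow]
          have : b + 2 / 2 = b + 1 := by norm_num
          rw [this]
          ring
        rw [e1] at h
        have hC : (u0 z : ℝ) ≤ C := by exact_mod_cast hIC.2.1 z
        calc (u0 z : ℝ) * w (n2 : ℤ) t z ≤ (C : ℝ) * (Real.exp ((b + 1) * t) * (1 / 2) ^ n2 * (2 : ℝ) ^ z) :=
              mul_le_mul hC h (hb0 _ _) (Nat.cast_nonneg _)
          _ = (C : ℝ) * Real.exp ((b + 1) * t) * (1 / 2) ^ n2 * (2 : ℝ) ^ z := by ring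
      · rw [if_neg hz, hIC.2.2 z (by omega)]
        simp
    have h4 : ∑ z ∈ F, (C : ℝ) * Real.exp ((b + 1) * t) * (1 / 2) ^ n2 * (if z ≤ 0 then (2 : ℝ) ^ z else 0)
        ≤ (C : ℝ) * Real.exp ((b + 1) * t) * (1 / 2) ^ n2 * 2 := by
      rw [← Finset.mul_sum]
      exact mul_le_mul_of_nonneg_left (geo F) (by positivity)
    linarith

end BRW.H63
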